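import Mathlib

set_option autoImplicit false

/-!
# Localised counting lemma

Words over the alphabet `Option (Fin 3)`; `vl s t` is the number of elements of a block of size three
covered by the union of the (at most one-element) sets coded by `s` and `t`.
If `∑ i ∈ I, vl (X i) (Y i) = |I|` for all `X ∈ A`, `Y ∈ B`, then at most `3 ^ |I|` pairs
`(X, Y) ∈ A × B` have `vl (X i) (Y i) = 1` for all `i ∈ I`.
-/

namespace Pool.Agent.H493.Ahl

open Finset

/-- number of elements of a block covered by two partial choices -/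
def vl : Option (Fin 3) → Option (Fin 3) → ℕ
  | none, none => 0
  | none, some _ => 1
  | some _, none => 1
  | some a, some b => if a = b then 1 else 2

theorem vl_comm (s t : Option (Fin 3)) : vl s t = vl t s := by
  cases s <;> cases t <;> simp [vl, eq_comm]

set_option linter.unusedSectionVars false

variable {ι : Type} [DecidableEq ι]

/-- words -/
abbrev W (ι : Type) := ι → Option (Fin 3)

/-- the good pairs -/
def good (I : Finset ι) (A B : Finset (W ι)) : Finset (W ι × W ι) :=
  (A ×ˢ B).filter (fun p => ∀ i ∈ I, vl (p.1 i) (p.2 i) = 1)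

theorem mem_good {I : Finset ι} {A B : Finset (W ι)} {p : W ι × W ι} :
    p ∈ good I A B ↔ p.1 ∈ A ∧ p.2 ∈ B ∧ ∀ i ∈ I, vl (p.1 i) (p.2 i) = 1 := by
  simp [good, and_assoc]

/-- the hypothesis -/
structure Hyp (I : Finset ι) (A B : Finset (W ι)) : Prop where
  suppA : ∀ X ∈ A, ∀ i, i ∉ I → X i = none
  suppB : ∀ Y ∈ B, ∀ i, i ∉ I → Y i = none
  tot : ∀ X ∈ A, ∀ Y ∈ B, ∑ i ∈ I, vl (X i) (Y i) = I.card

theorem Hyp.swap {I : Finset ι} {A B : Finset (W ι)} (h : Hyp I A B) : Hyp I B A :=
  ⟨h.suppB, h.suppA, fun Y hY X hX => by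
    rw [← h.tot X hX Y hY]
    exact Finset.sum_congr rfl fun i _ => vl_comm _ _⟩

/-- the bound for all index sets of size `k` -/
def Bd (ι : Type) [DecidableEq ι] (k : ℕ) : Prop :=
  ∀ (I : Finset ι) (A B : Finset (W ι)), I.card = k → Hyp I A B → (good I A B).card ≤ 3 ^ k

theorem diff {I : Finset ι} {A B : Finset (W ι)} (h : Hyp I A B) {i : ι} (hi : i ∈ I)
    {X1 X2 Y : W ι} (h1 : X1 ∈ A) (h2 : X2 ∈ A) (hY : Y ∈ B) (he : ∀ j, j ≠ i → X1 j = X2 j) :
    vl (X1 i) (Y i) = vl (X2 i) (Y i) := by
  have e1 := h.tot X1 h1 Y hY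
  have e2 := h.tot X2 h2 Y hY
  rw [← Finset.add_sum_erase I _ hi] at e1 e2
  have e3 : ∑ j ∈ I.erase i, vl (X1 j) (Y j) = ∑ j ∈ I.erase i, vl (X2 j) (Y j) :=
    Finset.sum_congr rfl fun j hj => by rw [he j (Finset.ne_of_mem_erase hj)]
  omega

theorem merge {k : ℕ} (ih : Bd ι k) {I : Finset ι} (hI : I.card = k + 1) {i : ι} (hi : i ∈ I)
    {A B : Finset (W ι)} (h : Hyp I A B) (A' B' : Finset (W ι)) (hA : A' ⊆ A) (hB : B' ⊆ B)
    (hv : ∀ X ∈ A', ∀ Y ∈ B', vl (X i) (Y i) = 1)
    (injA : ∀ X ∈ A', ∀ X2 ∈ A', (∀ j, j ≠ i → X j = X2 j) → X i = X2 i)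
    (injB : ∀ Y ∈ B', ∀ Y2 ∈ B', (∀ j, j ≠ i → Y j = Y2 j) → Y i = Y2 i) :
    (good I A' B').card ≤ 3 ^ k := by
  classical
  set r : W ι → W ι := fun X => Function.update X i none with hr
  have hrj : ∀ (X : W ι) (j : ι), j ≠ i → r X j = X j := fun X j hj => by
    simp [hr, Function.update_of_ne hj]
  have hri : ∀ X : W ι, r X i = none := fun X => by simp [hr]
  have hsup : ∀ (C C' : Finset (W ι)), C' ⊆ C → (∀ X ∈ C, ∀ i, i ∉ I → X i = none) →
      ∀ X ∈ C'.image r, ∀ j, j ∉ I.erase i → X j = none := by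
    intro C C' hC hs X hX j hj
    obtain ⟨X0, hX0, rfl⟩ := Finset.mem_image.1 hX
    by_cases hji : j = i
    · rw [hji]; exact hri X0
    · rw [hrj X0 j hji]
      exact hs X0 (hC hX0) j (fun hjI => hj (Finset.mem_erase.2 ⟨hji, hjI⟩))
  have hcard : (I.erase i).card = k := by
    rw [Finset.card_erase_of_mem hi, hI]; rfl
  have key := ih (I.erase i) (A'.image r) (B'.image r) hcard
    ⟨hsup A A' hA h.suppA, hsup B B' hB h.suppB, by
      intro X hX Y hY
      obtain ⟨X0, hX0, rfl⟩ := Finset.mem_image.1 hX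
      obtain ⟨Y0, hY0, rfl⟩ := Finset.mem_image.1 hY
      have e1 := h.tot X0 (hA hX0) Y0 (hB hY0)
      rw [← Finset.add_sum_erase I _ hi, hv X0 hX0 Y0 hY0] at e1
      have e3 : ∑ j ∈ I.erase i, vl (r X0 j) (r Y0 j) = ∑ j ∈ I.erase i, vl (X0 j) (Y0 j) :=
        Finset.sum_congr rfl fun j hj => by
          rw [hrj X0 j (Finset.ne_of_mem_erase hj), hrj Y0 j (Finset.ne_of_mem_erase hj)]
      rw [e3]; omega⟩
  refine le_trans (Finset.card_le_card_of_injOn (fun p => (r p.1, r p.2)) ?_ ?_) key
  · intro p hp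
    have hp' := mem_good.1 (Finset.mem_coe.1 hp)
    refine Finset.mem_coe.2 (mem_good.2 ⟨Finset.mem_image_of_mem r hp'.1,
      Finset.mem_image_of_mem r hp'.2.1, fun j hj => ?_⟩)
    show vl (r p.1 j) (r p.2 j) = 1
    rw [hrj _ j (Finset.ne_of_mem_erase hj), hrj _ j (Finset.ne_of_mem_erase hj)]
    exact hp'.2.2 j (Finset.mem_of_mem_erase hj)
  · intro p hp q hq hpq
    have hp' := mem_good.1 (Finset.mem_coe.1 hp)
    have hq' := mem_good.1 (Finset.mem_coe.1 hq)
    have e1 : r p.1 = r q.1 := congrArg Prod.fst hpq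
    have e2 : r p.2 = r q.2 := congrArg Prod.snd hpq
    have f1 : ∀ j, j ≠ i → p.1 j = q.1 j := fun j hj => by
      rw [← hrj p.1 j hj, ← hrj q.1 j hj, e1]
    have f2 : ∀ j, j ≠ i → p.2 j = q.2 j := fun j hj => by
      rw [← hrj p.2 j hj, ← hrj q.2 j hj, e2]
    have g1 := injA p.1 hp'.1 q.1 hq'.1 f1
    have g2 := injB p.2 hp'.2.1 q.2 hq'.2.1 f2
    refine Prod.ext (funext fun j => ?_) (funext fun j => ?_)
    · by_cases hj : j = i
      · rw [hj]; exact g1
      · exact f1 j hj
    · by_cases hj : j = i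
      · rw [hj]; exact g2
      · exact f2 j hj

theorem vl_none_right {s : Option (Fin 3)} (h : vl s none = 1) : s ≠ none := by
  rintro rfl; simp [vl] at h

theorem vl_some_right {s : Option (Fin 3)} {a : Fin 3} (h : vl s (some a) = 1) :
    s = none ∨ s = some a := by
  cases s with
  | none => exact Or.inl rfl
  | some b =>
    right
    by_contra hne
    have : b ≠ a := fun h => hne (by rw [h])
    simp [vl, this] at h

theorem claimB {k : ℕ} (ih : Bd ι k) {I : Finset ι} (hI : I.card = k + 1) {i : ι} (hi : i ∈ I)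
    {A B : Finset (W ι)} (h : Hyp I A B) (a : Fin 3) :
    (good I A B).card ≤ 3 * 3 ^ k ∨
      ((good I A B).filter (fun p => p.2 i = some a)).card ≤ 3 ^ k := by
  classical
  by_cases hc : ∃ X1 ∈ A, ∃ X2 ∈ A, X1 i = some a ∧ X2 i = none ∧ ∀ j, j ≠ i → X1 j = X2 j
  · left
    obtain ⟨X1, h1, X2, h2, e1, e2, he⟩ := hc
    have hY : ∀ Y ∈ B, Y i = some a := by
      intro Y hY
      have := diff h hi h1 h2 hY he
      rw [e1, e2] at this
      cases hYi : Y i with
      | none => rw [hYi] at this; simp [vl] at this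
      | some b =>
        rw [hYi] at this
        by_cases hab : a = b
        · rw [hab]
        · simp [vl, hab] at this
    have c1 := merge ih hI hi h (A.filter (fun X => X i = some a)) B (Finset.filter_subset _ _)
      (Finset.Subset.refl _)
      (fun X hX Y hY' => by rw [(Finset.mem_filter.1 hX).2, hY Y hY']; simp [vl])
      (fun X hX X2 hX2 _ => by rw [(Finset.mem_filter.1 hX).2, (Finset.mem_filter.1 hX2).2])
      (fun Y hY1 Y2 hY2 _ => by rw [hY Y hY1, hY Y2 hY2])
    have c2 := merge ih hI hi h (A.filter (fun X => X i = none)) B (Finset.filter_subset _ _)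
      (Finset.Subset.refl _)
      (fun X hX Y hY' => by rw [(Finset.mem_filter.1 hX).2, hY Y hY']; simp [vl])
      (fun X hX X2 hX2 _ => by rw [(Finset.mem_filter.1 hX).2, (Finset.mem_filter.1 hX2).2])
      (fun Y hY1 Y2 hY2 _ => by rw [hY Y hY1, hY Y2 hY2])
    have hsub : good I A B ⊆ good I (A.filter (fun X => X i = some a)) B ∪
        good I (A.filter (fun X => X i = none)) B := by
      intro p hp
      have hp' := mem_good.1 hp
      have hpi := hp'.2.2 i hi
      rw [hY p.2 hp'.2.1] at hpi
      rcases vl_some_right hpi with h3 | h3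
      · exact Finset.mem_union_right _ (mem_good.2 ⟨Finset.mem_filter.2 ⟨hp'.1, h3⟩, hp'.2⟩)
      · exact Finset.mem_union_left _ (mem_good.2 ⟨Finset.mem_filter.2 ⟨hp'.1, h3⟩, hp'.2⟩)
    have := (Finset.card_le_card hsub).trans (Finset.card_union_le _ _)
    omega
  · right
    have c1 := merge ih hI hi h (A.filter (fun X => X i = none ∨ X i = some a))
      (B.filter (fun Y => Y i = some a)) (Finset.filter_subset _ _) (Finset.filter_subset _ _)
      (fun X hX Y hY' => by
        rw [(Finset.mem_filter.1 hY').2]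
        rcases (Finset.mem_filter.1 hX).2 with h3 | h3 <;> rw [h3] <;> simp [vl])
      (fun X hX X2 hX2 he => by
        have m1 := Finset.mem_filter.1 hX
        have m2 := Finset.mem_filter.1 hX2
        rcases m1.2 with h3 | h3 <;> rcases m2.2 with h4 | h4
        · rw [h3, h4]
        · exact absurd ⟨X2, m2.1, X, m1.1, h4, h3, fun j hj => (he j hj).symm⟩ hc
        · exact absurd ⟨X, m1.1, X2, m2.1, h3, h4, he⟩ hc
        · rw [h3, h4])
      (fun Y hY1 Y2 hY2 _ => by rw [(Finset.mem_filter.1 hY1).2, (Finset.mem_filter.1 hY2).2])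
    refine le_trans (Finset.card_le_card ?_) c1
    intro p hp
    have hp1 := Finset.mem_filter.1 hp
    have hp' := mem_good.1 hp1.1
    have hpi := hp'.2.2 i hi
    rw [hp1.2] at hpi
    exact mem_good.2 ⟨Finset.mem_filter.2 ⟨hp'.1, vl_some_right hpi⟩,
      Finset.mem_filter.2 ⟨hp'.2.1, hp1.2⟩, hp'.2.2⟩

theorem third : ∀ a b : Fin 3, a ≠ b →
    ∃ c : Fin 3, c ≠ a ∧ c ≠ b ∧ ∀ x : Fin 3, x = a ∨ x = b ∨ x = c := by decide

theorem claimA {k : ℕ} (ih : Bd ι k) {I : Finset ι} (hI : I.card = k + 1) {i : ι} (hi : i ∈ I)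
    {A B : Finset (W ι)} (h : Hyp I A B) :
    (good I A B).card ≤ 3 * 3 ^ k ∨
      ((good I A B).filter (fun p => p.2 i = none)).card ≤ 3 ^ k := by
  classical
  by_cases hc : ∃ X1 ∈ A, ∃ X2 ∈ A, ∃ a b : Fin 3, a ≠ b ∧ X1 i = some a ∧ X2 i = some b ∧
      ∀ j, j ≠ i → X1 j = X2 j
  · left
    obtain ⟨X1, h1, X2, h2, a, b, hab, e1, e2, he⟩ := hc
    obtain ⟨c, hca, hcb, habc⟩ := third a b hab
    have hY : ∀ Y ∈ B, Y i = none ∨ Y i = some c := by
      intro Y hY
      have := diff h hi h1 h2 hY he
      rw [e1, e2] at this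
      cases hYi : Y i with
      | none => exact Or.inl rfl
      | some y =>
        right
        rw [hYi] at this
        rcases habc y with rfl | rfl | rfl
        · simp [vl, hab.symm] at this
        · simp [vl, hab] at this
        · rfl
    by_cases hn : ∃ Y0 ∈ B, Y0 i = some c
    · obtain ⟨Y0, hY0, hY0i⟩ := hn
      rcases claimB ih hI hi h c with hB | hB
      · exact hB
      have c1 := merge ih hI hi h (A.filter (fun X => X i = some a ∨ X i = some c))
        (B.filter (fun Y => Y i = none)) (Finset.filter_subset _ _) (Finset.filter_subset _ _)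
        (fun X hX Y hY' => by
          rw [(Finset.mem_filter.1 hY').2]
          rcases (Finset.mem_filter.1 hX).2 with h3 | h3 <;> rw [h3] <;> simp [vl])
        (fun X hX X2 hX2 he' => by
          have m1 := Finset.mem_filter.1 hX
          have m2 := Finset.mem_filter.1 hX2
          have hd := diff h hi m1.1 m2.1 hY0 he'
          rw [hY0i] at hd
          rcases m1.2 with h3 | h3 <;> rcases m2.2 with h4 | h4 <;> rw [h3, h4] at hd ⊢
          · simp [vl, hca.symm] at hd
          · simp [vl, hca.symm] at hd)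
        (fun Y hY1 Y2 hY2 _ => by rw [(Finset.mem_filter.1 hY1).2, (Finset.mem_filter.1 hY2).2])
      have c2 := merge ih hI hi h (A.filter (fun X => X i = some b))
        (B.filter (fun Y => Y i = none)) (Finset.filter_subset _ _) (Finset.filter_subset _ _)
        (fun X hX Y hY' => by
          rw [(Finset.mem_filter.1 hY').2, (Finset.mem_filter.1 hX).2]; simp [vl])
        (fun X hX X2 hX2 _ => by rw [(Finset.mem_filter.1 hX).2, (Finset.mem_filter.1 hX2).2])
        (fun Y hY1 Y2 hY2 _ => by rw [(Finset.mem_filter.1 hY1).2, (Finset.mem_filter.1 hY2).2])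
      have hsub : good I A B ⊆ ((good I A B).filter (fun p => p.2 i = some c)) ∪
          (good I (A.filter (fun X => X i = some a ∨ X i = some c)) (B.filter (fun Y => Y i = none)) ∪
          good I (A.filter (fun X => X i = some b)) (B.filter (fun Y => Y i = none))) := by
        intro p hp
        have hp' := mem_good.1 hp
        have hpi := hp'.2.2 i hi
        rcases hY p.2 hp'.2.1 with h3 | h3
        · refine Finset.mem_union_right _ ?_
          rw [h3] at hpi
          have h5 := vl_none_right hpi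
          cases hX : p.1 i with
          | none => exact absurd hX h5
          | some x =>
            rcases habc x with rfl | rfl | rfl
            · exact Finset.mem_union_left _ (mem_good.2 ⟨Finset.mem_filter.2 ⟨hp'.1, Or.inl hX⟩,
                Finset.mem_filter.2 ⟨hp'.2.1, h3⟩, hp'.2.2⟩)
            · exact Finset.mem_union_right _ (mem_good.2 ⟨Finset.mem_filter.2 ⟨hp'.1, hX⟩,
                Finset.mem_filter.2 ⟨hp'.2.1, h3⟩, hp'.2.2⟩)
            · exact Finset.mem_union_left _ (mem_good.2 ⟨Finset.mem_filter.2 ⟨hp'.1, Or.inr hX⟩,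
                Finset.mem_filter.2 ⟨hp'.2.1, h3⟩, hp'.2.2⟩)
        · exact Finset.mem_union_left _ (Finset.mem_filter.2 ⟨hp, h3⟩)
      have h6 := (Finset.card_le_card hsub).trans (Finset.card_union_le _ _)
      have h7 := Finset.card_union_le
        (good I (A.filter (fun X => X i = some a ∨ X i = some c)) (B.filter (fun Y => Y i = none)))
        (good I (A.filter (fun X => X i = some b)) (B.filter (fun Y => Y i = none)))
      omega
    · have hY' : ∀ Y ∈ B, Y i = none := fun Y hYB => by
        rcases hY Y hYB with h3 | h3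
        · exact h3
        · exact absurd ⟨Y, hYB, h3⟩ hn
      have c1 : ∀ s : Fin 3, (good I (A.filter (fun X => X i = some s)) B).card ≤ 3 ^ k := fun s =>
        merge ih hI hi h (A.filter (fun X => X i = some s)) B (Finset.filter_subset _ _)
          (Finset.Subset.refl _)
          (fun X hX Y hY1 => by rw [(Finset.mem_filter.1 hX).2, hY' Y hY1]; simp [vl])
          (fun X hX X2 hX2 _ => by rw [(Finset.mem_filter.1 hX).2, (Finset.mem_filter.1 hX2).2])
          (fun Y hY1 Y2 hY2 _ => by rw [hY' Y hY1, hY' Y2 hY2])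
      have hsub : good I A B ⊆ (Finset.univ : Finset (Fin 3)).biUnion
          (fun s => good I (A.filter (fun X => X i = some s)) B) := by
        intro p hp
        have hp' := mem_good.1 hp
        have hpi := hp'.2.2 i hi
        rw [hY' p.2 hp'.2.1] at hpi
        have h5 := vl_none_right hpi
        cases hX : p.1 i with
        | none => exact absurd hX h5
        | some x =>
          exact Finset.mem_biUnion.2 ⟨x, Finset.mem_univ _, mem_good.2
            ⟨Finset.mem_filter.2 ⟨hp'.1, hX⟩, hp'.2⟩⟩
      have h6 := (Finset.card_le_card hsub).trans Finset.card_biUnion_le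
      have h7 := Finset.sum_le_card_nsmul (Finset.univ : Finset (Fin 3))
        (fun s => (good I (A.filter (fun X => X i = some s)) B).card) (3 ^ k) (fun s _ => c1 s)
      simp only [Finset.card_univ, Fintype.card_fin, smul_eq_mul] at h7
      exact h6.trans h7
  · right
    have c1 := merge ih hI hi h (A.filter (fun X => X i ≠ none))
      (B.filter (fun Y => Y i = none)) (Finset.filter_subset _ _) (Finset.filter_subset _ _)
      (fun X hX Y hY' => by
        rw [(Finset.mem_filter.1 hY').2]
        have := (Finset.mem_filter.1 hX).2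
        cases hXi : X i with
        | none => exact absurd hXi this
        | some x => simp [vl])
      (fun X hX X2 hX2 he => by
        have m1 := Finset.mem_filter.1 hX
        have m2 := Finset.mem_filter.1 hX2
        cases h3 : X i with
        | none => exact absurd h3 m1.2
        | some a =>
          cases h4 : X2 i with
          | none => exact absurd h4 m2.2
          | some b =>
            by_contra hne
            exact hc ⟨X, m1.1, X2, m2.1, a, b, fun hab => hne (by rw [hab]), h3, h4, he⟩)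
      (fun Y hY1 Y2 hY2 _ => by rw [(Finset.mem_filter.1 hY1).2, (Finset.mem_filter.1 hY2).2])
    refine le_trans (Finset.card_le_card ?_) c1
    intro p hp
    have hp1 := Finset.mem_filter.1 hp
    have hp' := mem_good.1 hp1.1
    have hpi := hp'.2.2 i hi
    rw [hp1.2] at hpi
    exact mem_good.2 ⟨Finset.mem_filter.2 ⟨hp'.1, vl_none_right hpi⟩,
      Finset.mem_filter.2 ⟨hp'.2.1, hp1.2⟩, hp'.2.2⟩

theorem swap_card (I : Finset ι) (A B : Finset (W ι)) (P : W ι → Prop) [DecidablePred P] :
    ((good I B A).filter (fun p => P p.2)).card = ((good I A B).filter (fun p => P p.1)).card := by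
  classical
  refine Finset.card_bij (fun p _ => (p.2, p.1)) ?_ ?_ ?_
  · intro p hp
    have hp1 := Finset.mem_filter.1 hp
    have hp' := mem_good.1 hp1.1
    exact Finset.mem_filter.2 ⟨mem_good.2 ⟨hp'.2.1, hp'.1, fun i hi => by
      rw [vl_comm]; exact hp'.2.2 i hi⟩, hp1.2⟩
  · intro p _ q _ hpq
    exact Prod.ext (congrArg Prod.snd hpq) (congrArg Prod.fst hpq)
  · intro p hp
    have hp1 := Finset.mem_filter.1 hp
    have hp' := mem_good.1 hp1.1
    exact ⟨(p.2, p.1), Finset.mem_filter.2 ⟨mem_good.2 ⟨hp'.2.1, hp'.1, fun i hi => by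
      rw [vl_comm]; exact hp'.2.2 i hi⟩, hp1.2⟩, rfl⟩

theorem swap_card' (I : Finset ι) (A B : Finset (W ι)) : (good I B A).card = (good I A B).card := by
  have := swap_card I A B (fun _ => True)
  simpa using this

/-- The averaging step at one coordinate. -/
theorem pos_coord {S T : ℕ} (G : Finset (W ι × W ι)) (hS : G.card = S) (hST : 3 * T < S) (i : ι)
    (hN : (G.filter (fun p => p.1 i = none)).card ≤ T)
    (hM : (G.filter (fun p => p.2 i = none)).card ≤ T)
    (hMa : ∀ a : Fin 3, (G.filter (fun p => p.2 i = some a)).card ≤ T) :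
    0 < ∑ g ∈ G, ∑ h ∈ G, ((vl (g.1 i) (h.2 i) : ℤ) - 1) := by
  classical
  have hpt : ∀ g ∈ G, (if g.1 i = none then -(T : ℤ) else (S : ℤ) - 2 * T) ≤
      ∑ h ∈ G, ((vl (g.1 i) (h.2 i) : ℤ) - 1) := by
    intro g _
    cases hg : g.1 i with
    | none =>
      simp only [if_true]
      have e : ∀ h ∈ G, ((vl none (h.2 i) : ℤ) - 1) = -(if h.2 i = none then (1 : ℤ) else 0) := by
        intro h _
        cases h.2 i <;> simp [vl]
      rw [Finset.sum_congr rfl e, Finset.sum_neg_distrib, Finset.sum_boole]
      have : (((G.filter (fun p => p.2 i = none)).card : ℕ) : ℤ) ≤ T := by exact_mod_cast hM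
      linarith
    | some a =>
      have hne : ¬ ((some a : Option (Fin 3)) = none) := by simp
      rw [if_neg hne]
      have e : ∀ h ∈ G, (1 : ℤ) - (if h.2 i = none then (1 : ℤ) else 0) -
          (if h.2 i = some a then (1 : ℤ) else 0) ≤ ((vl (some a) (h.2 i) : ℤ) - 1) := by
        intro h _
        cases hh : h.2 i with
        | none => simp [vl]
        | some b =>
          by_cases hab : a = b
          · simp [vl, hab]
          · have : ¬ b = a := fun h => hab h.symm
            simp [vl, hab, this]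
      refine le_trans ?_ (Finset.sum_le_sum e)
      rw [Finset.sum_sub_distrib, Finset.sum_sub_distrib, Finset.sum_boole, Finset.sum_boole]
      have h1 : (((G.filter (fun p => p.2 i = none)).card : ℕ) : ℤ) ≤ T := by exact_mod_cast hM
      have h2 : (((G.filter (fun p => p.2 i = some a)).card : ℕ) : ℤ) ≤ T := by
        exact_mod_cast hMa a
      have h3 : (∑ _h ∈ G, (1 : ℤ)) = S := by simp [hS]
      rw [h3]
      linarith
  refine lt_of_lt_of_le ?_ (Finset.sum_le_sum hpt)
  rw [Finset.sum_ite]
  simp only [Finset.sum_const, nsmul_eq_mul]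
  have hsplit := Finset.card_filter_add_card_filter_not (s := G) (fun p => p.1 i = none)
  rw [hS] at hsplit
  set N := (G.filter (fun p => p.1 i = none)).card with hNdef
  set N' := (G.filter (fun p => ¬ p.1 i = none)).card with hN'def
  have e1 : (N : ℤ) + N' = S := by exact_mod_cast hsplit
  have e2 : (N : ℤ) ≤ T := by exact_mod_cast hN
  have e3 : (3 : ℤ) * T < S := by exact_mod_cast hST
  have e4 : (0 : ℤ) ≤ N := by positivity
  have e5 : (0 : ℤ) ≤ T := by positivity
  have e6 : (N' : ℤ) = S - N := by linarith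
  rw [e6]
  nlinarith [mul_nonneg (sub_nonneg.2 e2) (by linarith : (0 : ℤ) ≤ S - T),
    mul_pos (by linarith : (0 : ℤ) < S - 3 * T) (by linarith : (0 : ℤ) < S), mul_nonneg e5 e5]

/-- The localised counting lemma. -/
theorem bound (k : ℕ) : Bd ι k := by
  classical
  induction k with
  | zero =>
    intro I A B hI h
    have hI0 : I = ∅ := Finset.card_eq_zero.1 hI
    subst hI0
    have hA : A ⊆ {fun _ => none} := fun X hX => Finset.mem_singleton.2
      (funext fun i => h.suppA X hX i (by simp))
    have hB : B ⊆ {fun _ => none} := fun X hX => Finset.mem_singleton.2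
      (funext fun i => h.suppB X hX i (by simp))
    have hA1 := Finset.card_le_card hA
    have hB1 := Finset.card_le_card hB
    simp only [Finset.card_singleton] at hA1 hB1
    refine (Finset.card_filter_le _ _).trans ?_
    rw [Finset.card_product]
    exact (Nat.mul_le_mul hA1 hB1).trans (by simp)
  | succ k ih =>
    intro I A B hI h
    by_contra hcon
    have hbig : 3 * 3 ^ k < (good I A B).card := by
      rw [pow_succ] at hcon; omega
    have hbig' : 3 * 3 ^ k < (good I B A).card := by rw [swap_card']; exact hbig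
    have hpos : ∀ i ∈ I, 0 < ∑ g ∈ good I A B, ∑ h ∈ good I A B,
        ((vl (g.1 i) (h.2 i) : ℤ) - 1) := by
      intro i hi
      refine pos_coord (good I A B) rfl hbig i ?_ ?_ ?_
      · rcases claimA ih hI hi h.swap with h1 | h1
        · omega
        · rw [swap_card I A B (fun X => X i = none)] at h1
          exact h1
      · rcases claimA ih hI hi h with h1 | h1
        · omega
        · exact h1
      · intro a
        rcases claimB ih hI hi h a with h1 | h1
        · omega
        · exact h1
    have hne : I.Nonempty := Finset.card_pos.1 (by omega)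
    have hsum : 0 < ∑ i ∈ I, ∑ g ∈ good I A B, ∑ h ∈ good I A B,
        ((vl (g.1 i) (h.2 i) : ℤ) - 1) := Finset.sum_pos hpos hne
    have hz : ∑ i ∈ I, ∑ g ∈ good I A B, ∑ h ∈ good I A B,
        ((vl (g.1 i) (h.2 i) : ℤ) - 1) = 0 := by
      rw [Finset.sum_comm]
      refine Finset.sum_eq_zero fun g hg => ?_
      rw [Finset.sum_comm]
      refine Finset.sum_eq_zero fun q hq => ?_
      have := h.tot g.1 (mem_good.1 hg).1 q.2 (mem_good.1 hq).2.1
      rw [Finset.sum_sub_distrib]
      have h2 : (∑ i ∈ I, (vl (g.1 i) (q.2 i) : ℤ)) = (I.card : ℤ) := by exact_mod_cast this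
      rw [h2]
      simp
    rw [hz] at hsum
    exact lt_irrefl _ hsum

end Pool.Agent.H493.Ahl
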