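import Mathlib
import Pool.Agent.H493.AhlLocal

set_option autoImplicit false

/-!
# Averaging the localised lemma

If `|X ∪ Y| = k` for all `X ∈ 𝒳`, `Y ∈ 𝒴` (subsets of an `n`-set) and `3 k ≤ n`, then
`|𝒳| |𝒴| ≤ C(n, k)`.
-/

namespace Pool.Agent.H493.Ahl

open Finset

variable {n k : ℕ}

/-- the block embeddings -/
abbrev Emb (n k : ℕ) := (Fin k × Fin 3) ↪ Fin n

/-- the transversal of a choice function -/
def tr (e : Emb n k) (f : Fin k → Fin 3) : Finset (Fin n) :=
  Finset.univ.image (fun j => e (j, f j))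

theorem mem_tr (e : Emb n k) (f : Fin k → Fin 3) (j : Fin k) (a : Fin 3) :
    e (j, a) ∈ tr e f ↔ a = f j := by
  constructor
  · intro h
    obtain ⟨j', _, hj'⟩ := Finset.mem_image.1 h
    have := e.injective hj'
    have h1 : j' = j := congrArg Prod.fst this
    have h2 : f j' = a := congrArg Prod.snd this
    rw [← h2, h1]
  · intro h
    exact Finset.mem_image.2 ⟨j, Finset.mem_univ _, by rw [h]⟩

/-- `Z` is a transversal of the blocks of `e` -/
def Tr (e : Emb n k) (Z : Finset (Fin n)) : Prop := ∃ f : Fin k → Fin 3, Z = tr e f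

/-- `Z` is a partial transversal -/
def PT (e : Emb n k) (Z : Finset (Fin n)) : Prop := ∃ f : Fin k → Fin 3, Z ⊆ tr e f

open Classical in
/-- the word of a set -/
noncomputable def word (e : Emb n k) (X : Finset (Fin n)) : W (Fin k) := fun j =>
  if h : ∃ a, e (j, a) ∈ X then some h.choose else none

theorem word_spec {e : Emb n k} {X : Finset (Fin n)} (h : PT e X) (j : Fin k) (a : Fin 3) :
    e (j, a) ∈ X ↔ word e X j = some a := by
  classical
  obtain ⟨f, hf⟩ := h
  have huniq : ∀ b, e (j, b) ∈ X → b = f j := fun b hb => (mem_tr e f j b).1 (hf hb)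
  by_cases hex : ∃ a, e (j, a) ∈ X
  · have hw : word e X j = some hex.choose := by simp only [word]; rw [dif_pos hex]
    have hc := huniq _ hex.choose_spec
    rw [hw]
    constructor
    · intro ha
      rw [hc, huniq a ha]
    · intro ha
      have : hex.choose = a := Option.some.inj ha
      rw [← this]; exact hex.choose_spec
  · have hw : word e X j = none := by simp only [word]; rw [dif_neg hex]
    rw [hw]
    constructor
    · intro ha; exact absurd ⟨a, ha⟩ hex
    · intro ha; exact absurd ha (by simp)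

theorem sum_vl : ∀ s t : Option (Fin 3),
    (∑ a : Fin 3, if s = some a ∨ t = some a then 1 else 0) = vl s t := by decide

theorem PT.mem_range {e : Emb n k} {X : Finset (Fin n)} (h : PT e X) {x : Fin n} (hx : x ∈ X) :
    ∃ j a, e (j, a) = x := by
  obtain ⟨f, hf⟩ := h
  obtain ⟨j, _, hj⟩ := Finset.mem_image.1 (hf hx)
  exact ⟨j, f j, hj⟩

theorem vl_word {e : Emb n k} {X Y : Finset (Fin n)} (hX : PT e X) (hY : PT e Y) (j : Fin k) :
    vl (word e X j) (word e Y j) = ∑ a : Fin 3, if e (j, a) ∈ X ∪ Y then 1 else 0 := by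
  rw [← sum_vl]
  refine Finset.sum_congr rfl fun a _ => ?_
  simp only [Finset.mem_union, word_spec hX, word_spec hY]

theorem card_union_eq {e : Emb n k} {X Y : Finset (Fin n)} (hX : PT e X) (hY : PT e Y) :
    ∑ j : Fin k, vl (word e X j) (word e Y j) = (X ∪ Y).card := by
  classical
  simp only [vl_word hX hY]
  rw [← Fintype.sum_prod_type' (f := fun (j : Fin k) (a : Fin 3) => if e (j, a) ∈ X ∪ Y then 1 else 0)]
  rw [← Finset.card_filter]
  have : X ∪ Y = (Finset.univ.filter (fun x : Fin k × Fin 3 => e (x.1, x.2) ∈ X ∪ Y)).image e := by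
    ext x
    constructor
    · intro hx
      have : ∃ j a, e (j, a) = x := by
        rcases Finset.mem_union.1 hx with h | h
        · exact hX.mem_range h
        · exact hY.mem_range h
      obtain ⟨j, a, hja⟩ := this
      exact Finset.mem_image.2 ⟨(j, a), Finset.mem_filter.2 ⟨Finset.mem_univ _, by rw [hja]; exact hx⟩, hja⟩
    · intro hx
      obtain ⟨q, hq, rfl⟩ := Finset.mem_image.1 hx
      exact (Finset.mem_filter.1 hq).2
  conv_rhs => rw [this]
  rw [Finset.card_image_of_injective _ e.injective]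

theorem word_inj {e : Emb n k} {X Y : Finset (Fin n)} (hX : PT e X) (hY : PT e Y)
    (h : word e X = word e Y) : X = Y := by
  ext x
  constructor
  · intro hx
    obtain ⟨j, a, rfl⟩ := hX.mem_range hx
    rw [word_spec hY, ← h, ← word_spec hX]; exact hx
  · intro hx
    obtain ⟨j, a, rfl⟩ := hY.mem_range hx
    rw [word_spec hX, h, ← word_spec hY]; exact hx

open Classical in
theorem local_bound (e : Emb n k) (𝒳 𝒴 : Finset (Finset (Fin n)))
    (hXY : ∀ X ∈ 𝒳, ∀ Y ∈ 𝒴, (X ∪ Y).card = k) :
    ((𝒳 ×ˢ 𝒴).filter (fun p => Tr e (p.1 ∪ p.2))).card ≤ 3 ^ k := by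
  have hb := bound (ι := Fin k) k (Finset.univ) ((𝒳.filter (PT e)).image (word e))
    ((𝒴.filter (PT e)).image (word e)) (by simp)
    ⟨fun X _ i hi => absurd (Finset.mem_univ i) hi, fun X _ i hi => absurd (Finset.mem_univ i) hi, by
      intro X hX Y hY
      obtain ⟨X0, hX0, rfl⟩ := Finset.mem_image.1 hX
      obtain ⟨Y0, hY0, rfl⟩ := Finset.mem_image.1 hY
      have h1 := Finset.mem_filter.1 hX0
      have h2 := Finset.mem_filter.1 hY0
      rw [card_union_eq h1.2 h2.2, hXY X0 h1.1 Y0 h2.1]; simp⟩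
  refine le_trans (Finset.card_le_card_of_injOn (fun p => (word e p.1, word e p.2)) ?_ ?_) hb
  · intro p hp
    have hp1 := Finset.mem_filter.1 (Finset.mem_coe.1 hp)
    obtain ⟨hm, f, hf⟩ := hp1
    have hm' := Finset.mem_product.1 hm
    have hX : PT e p.1 := ⟨f, by rw [← hf]; exact Finset.subset_union_left⟩
    have hY : PT e p.2 := ⟨f, by rw [← hf]; exact Finset.subset_union_right⟩
    refine Finset.mem_coe.2 (mem_good.2 ⟨Finset.mem_image_of_mem _ (Finset.mem_filter.2 ⟨hm'.1, hX⟩),
      Finset.mem_image_of_mem _ (Finset.mem_filter.2 ⟨hm'.2, hY⟩), fun j _ => ?_⟩)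
    show vl (word e p.1 j) (word e p.2 j) = 1
    rw [vl_word hX hY, hf]
    simp only [mem_tr]
    simp
  · intro p hp q hq hpq
    have hpt : ∀ p : Finset (Fin n) × Finset (Fin n),
        p ∈ ((𝒳 ×ˢ 𝒴).filter (fun p => Tr e (p.1 ∪ p.2))) → PT e p.1 ∧ PT e p.2 := by
      intro p hp
      obtain ⟨_, f, hf⟩ := Finset.mem_filter.1 hp
      exact ⟨⟨f, by rw [← hf]; exact Finset.subset_union_left⟩,
        ⟨f, by rw [← hf]; exact Finset.subset_union_right⟩⟩
    exact Prod.ext (word_inj (hpt p hp).1 (hpt q hq).1 (congrArg Prod.fst hpq))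
      (word_inj (hpt p hp).2 (hpt q hq).2 (congrArg Prod.snd hpq))

theorem tr_trans (e : Emb n k) (f : Fin k → Fin 3) (π : Equiv.Perm (Fin n)) :
    tr (e.trans π.toEmbedding) f = (tr e f).map π.toEmbedding := by
  ext x
  simp [tr, Equiv.eq_symm_apply]

open Classical in
theorem count_const {Z Z' : Finset (Fin n)} (h : Z.card = Z'.card) :
    (Finset.univ.filter (fun e : Emb n k => Tr e Z)).card =
      (Finset.univ.filter (fun e : Emb n k => Tr e Z')).card := by
  set π : Equiv.Perm (Fin n) := Equiv.extendSubtype (Finset.equivOfCardEq h) with hπ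
  have hmap : Z.map π.toEmbedding = Z' := by
    refine Finset.eq_of_subset_of_card_le ?_ (by rw [Finset.card_map, h])
    intro x hx
    obtain ⟨y, hy, rfl⟩ := Finset.mem_map.1 hx
    exact Equiv.extendSubtype_mem (Finset.equivOfCardEq h) y hy
  refine Finset.card_bij (fun e _ => e.trans π.toEmbedding) ?_ ?_ ?_
  · intro e he
    obtain ⟨f, hf⟩ := (Finset.mem_filter.1 he).2
    exact Finset.mem_filter.2 ⟨Finset.mem_univ _, f, by rw [tr_trans, ← hf, hmap]⟩
  · intro e _ e' _ hee
    ext x
    have := DFunLike.congr_fun hee x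
    simp only [Function.Embedding.trans_apply, Equiv.coe_toEmbedding,
      EmbeddingLike.apply_eq_iff_eq] at this
    rw [this]
  · intro e he
    obtain ⟨f, hf⟩ := (Finset.mem_filter.1 he).2
    refine ⟨e.trans π.symm.toEmbedding, Finset.mem_filter.2 ⟨Finset.mem_univ _, f, ?_⟩, ?_⟩
    · rw [tr_trans, ← hf, ← hmap]
      ext x
      simp
    · ext x
      simp

open Classical in
/-- **The union form of the theorem.** -/
theorem union_bound (h3 : 3 * k ≤ n) (𝒳 𝒴 : Finset (Finset (Fin n)))
    (hXY : ∀ X ∈ 𝒳, ∀ Y ∈ 𝒴, (X ∪ Y).card = k) : 𝒳.card * 𝒴.card ≤ n.choose k := by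
  obtain ⟨Z0, _, hZ0⟩ : ∃ Z0 ⊆ (Finset.univ : Finset (Fin n)), Z0.card = k :=
    Finset.exists_subset_card_eq (by simp; omega)
  set c := (Finset.univ.filter (fun e : Emb n k => Tr e Z0)).card with hc
  have hcZ : ∀ Z : Finset (Fin n), Z.card = k →
      (Finset.univ.filter (fun e : Emb n k => Tr e Z)).card = c := fun Z hZ =>
    count_const (by rw [hZ, hZ0])
  -- double counting of transversals
  have h1 : Fintype.card (Emb n k) * 3 ^ k ≤ n.choose k * c := by
    have e1 : ∑ Z ∈ (Finset.univ : Finset (Fin n)).powersetCard k,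
        (Finset.univ.filter (fun e : Emb n k => Tr e Z)).card = n.choose k * c := by
      rw [Finset.sum_congr rfl (fun Z hZ => hcZ Z (Finset.mem_powersetCard.1 hZ).2)]
      simp [Finset.card_powersetCard]
    rw [← e1]
    simp only [Finset.card_filter]
    rw [Finset.sum_comm]
    have e2 : ∀ e : Emb n k, 3 ^ k ≤ ∑ Z ∈ (Finset.univ : Finset (Fin n)).powersetCard k,
        (if Tr e Z then 1 else 0) := by
      intro e
      rw [← Finset.card_filter]
      have hcard : (Finset.univ : Finset (Fin k → Fin 3)).card = 3 ^ k := by simp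
      rw [← hcard]
      refine Finset.card_le_card_of_injOn (fun f => tr e f) ?_ ?_
      · intro f _
        refine Finset.mem_coe.2 (Finset.mem_filter.2 ⟨Finset.mem_powersetCard.2
          ⟨Finset.subset_univ _, ?_⟩, f, rfl⟩)
        show (Finset.univ.image (fun j => e (j, f j))).card = k
        rw [Finset.card_image_of_injective]
        · simp
        · intro j j' hj
          exact congrArg Prod.fst (e.injective hj)
      · intro f _ g _ hfg
        funext j
        have h5 : e (j, f j) ∈ tr e g := by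
          have h6 : tr e f = tr e g := hfg
          rw [← h6, mem_tr]
        exact (mem_tr e g j (f j)).1 h5
    calc Fintype.card (Emb n k) * 3 ^ k = ∑ _e : Emb n k, 3 ^ k := by simp
      _ ≤ _ := Finset.sum_le_sum fun e _ => e2 e
  have h2 : 𝒳.card * 𝒴.card * c ≤ Fintype.card (Emb n k) * 3 ^ k := by
    have e1 : ∑ p ∈ 𝒳 ×ˢ 𝒴, (Finset.univ.filter (fun e : Emb n k => Tr e (p.1 ∪ p.2))).card =
        𝒳.card * 𝒴.card * c := by
      rw [Finset.sum_congr rfl (fun p hp => hcZ (p.1 ∪ p.2)
        (hXY p.1 (Finset.mem_product.1 hp).1 p.2 (Finset.mem_product.1 hp).2))]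
      simp [Finset.card_product]
    rw [← e1]
    simp only [Finset.card_filter]
    rw [Finset.sum_comm]
    calc _ ≤ ∑ _e : Emb n k, 3 ^ k := Finset.sum_le_sum fun e _ => by
            rw [← Finset.card_filter]
            exact local_bound e 𝒳 𝒴 hXY
      _ = Fintype.card (Emb n k) * 3 ^ k := by simp
  have hpos : 0 < Fintype.card (Emb n k) := by
    refine Fintype.card_pos_iff.2 (Function.Embedding.nonempty_of_card_le ?_)
    simp [Fintype.card_prod]; omega
  have hcpos : 0 < c := by
    by_contra h0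
    have : c = 0 := by omega
    rw [this, Nat.mul_zero] at h1
    have : 0 < Fintype.card (Emb n k) * 3 ^ k := Nat.mul_pos hpos (by positivity)
    omega
  exact Nat.le_of_mul_le_mul_right (h2.trans h1) hcpos

end Pool.Agent.H493.Ahl
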